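import Mathlib

/-!
# MP_146d92_al : the group algebra of the generic countable group is semiprimitive

For a comeager set of group operations `m` on `ℕ` the following holds: for distinct non-identity
elements `g_1, …, g_n` there is an elementary abelian subgroup of order `2^(n+1)` with
independent generators `d_0, …, d_n` such that `d_i = g_i d_0 g_i⁻¹`. In such a group, for every
field `K` with `2 ≠ 0`, the ideal generated by a nonzero element of `K[G]` contains a nonzero
idempotent, so `J(K[G]) = 0`.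
-/

namespace Pool.Agent.Results.MP_146d92_al.GenericSemiprimitive

open MonoidAlgebra

/-- `m` is a group operation on `ℕ`. -/
def IsGroupOp (m : ℕ × ℕ → ℕ) : Prop :=
  (∀ a b c, m (m (a, b), c) = m (a, m (b, c))) ∧
  ∃ e, (∀ a, m (e, a) = a ∧ m (a, e) = a) ∧ ∀ a, ∃ b, m (a, b) = e ∧ m (b, a) = e

/-- The space of the groups with universe `ℕ`, with the topology of pointwise convergence (`ℕ` is
discrete). -/
abbrev Gs : Type := {m : ℕ × ℕ → ℕ // IsGroupOp m}

/-- The underlying set `ℕ` of the group given by `m`. -/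
def Carrier (_m : Gs) : Type := ℕ

/-- A natural number as an element of the group given by `m`. -/
def of (m : Gs) (a : ℕ) : Carrier m := a

noncomputable instance (m : Gs) : Mul (Carrier m) := ⟨fun a b => m.1 (a, b)⟩

noncomputable instance (m : Gs) : One (Carrier m) := ⟨m.2.2.choose⟩

noncomputable instance (m : Gs) : Inv (Carrier m) := ⟨fun a => (m.2.2.choose_spec.2 a).choose⟩

/-- The group given by `m`. -/
noncomputable instance (m : Gs) : Group (Carrier m) :=
  Group.ofLeftAxioms (fun a b c => m.2.1 a b c) (fun a => (m.2.2.choose_spec.1 a).1)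
    (fun a => (m.2.2.choose_spec.2 a).choose_spec.2)

/-- The product in the group given by `m` is `m`. -/
theorem mul_def (m : Gs) (a b : Carrier m) : a * b = m.1 (a, b) := rfl

/-- The group has the witnesses for `g_1, …, g_n`. -/
def HasWitness {G : Type} [Group G] {n : ℕ} (g : Fin n → G) : Prop :=
  ∃ Φ : (Fin (n + 1) → ZMod 2) → G, Function.Injective Φ ∧ (∀ x y, Φ x * Φ y = Φ (x + y)) ∧
    ∀ i : Fin n, Φ (Pi.single i.succ 1) * g i = g i * Φ (Pi.single 0 1)

section algebra

variable {G : Type} [Group G] {n : ℕ} (K : Type) [Field K]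

/-- The sign character. -/
def sgn (x : Fin (n + 1) → ZMod 2) : K := ∏ i : Fin n, if x i.succ = 0 then 1 else -1

theorem sgn_add (x y : Fin (n + 1) → ZMod 2) : sgn K (x + y) = sgn K x * sgn K y := by
  unfold sgn
  rw [← Finset.prod_mul_distrib]
  apply Finset.prod_congr rfl
  intro i _
  rw [Pi.add_apply]
  have h : ∀ a b : ZMod 2, (if a + b = 0 then (1 : K) else -1) =
      (if a = 0 then 1 else -1) * (if b = 0 then 1 else -1) := by
    intro a b
    have h2 : ∀ c : ZMod 2, c = 0 ∨ c = 1 := by decide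
    rcases h2 a with rfl | rfl <;> rcases h2 b with rfl | rfl
    · simp
    · simp
    · simp
    · rw [show (1 : ZMod 2) + 1 = 0 by decide]
      simp
  exact h _ _

theorem sgn_zero : sgn K (0 : Fin (n + 1) → ZMod 2) = 1 := by
  simp [sgn]

theorem sgn_single_zero : sgn K (Pi.single 0 1 : Fin (n + 1) → ZMod 2) = 1 := by
  unfold sgn
  apply Finset.prod_eq_one
  intro i _
  rw [Pi.single_eq_of_ne (Fin.succ_ne_zero i), if_pos rfl]

theorem sgn_single_succ (i : Fin n) : sgn K (Pi.single i.succ 1 : Fin (n + 1) → ZMod 2) = -1 := by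
  unfold sgn
  rw [Finset.prod_eq_single i]
  · rw [Pi.single_eq_same, if_neg (by decide)]
  · intro j _ hj
    rw [Pi.single_eq_of_ne (fun h => hj (Fin.succ_injective n h)), if_pos rfl]
  · intro h
    exact absurd (Finset.mem_univ i) h

/-- (A multiple of) the idempotent. -/
noncomputable def idem (Φ : (Fin (n + 1) → ZMod 2) → G) : MonoidAlgebra K G :=
  ∑ x, single (Φ x) (sgn K x)

variable {K}

theorem single_mul_idem (Φ : (Fin (n + 1) → ZMod 2) → G) (hΦ : ∀ x y, Φ x * Φ y = Φ (x + y))
    (y : Fin (n + 1) → ZMod 2) : single (Φ y) 1 * idem K Φ = sgn K y • idem K Φ := by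
  unfold idem
  rw [Finset.mul_sum, Finset.smul_sum]
  rw [← Equiv.sum_comp (Equiv.addLeft y) (fun x => sgn K y • single (Φ x) (sgn K x))]
  apply Finset.sum_congr rfl
  intro x _
  rw [single_mul_single, hΦ, one_mul, Equiv.coe_addLeft, smul_single, sgn_add, smul_eq_mul,
    ← mul_assoc]
  have : sgn K y * sgn K y = 1 := by
    rw [← sgn_add]
    have : y + y = 0 := by
      ext i
      exact CharTwo.add_self_eq_zero (y i)
    rw [this, sgn_zero]
  rw [this, one_mul]

theorem idem_mul_single (Φ : (Fin (n + 1) → ZMod 2) → G) (hΦ : ∀ x y, Φ x * Φ y = Φ (x + y))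
    (y : Fin (n + 1) → ZMod 2) : idem K Φ * single (Φ y) 1 = sgn K y • idem K Φ := by
  rw [← single_mul_idem Φ hΦ y]
  unfold idem
  rw [Finset.mul_sum, Finset.sum_mul]
  apply Finset.sum_congr rfl
  intro x _
  rw [single_mul_single, single_mul_single, hΦ, hΦ, add_comm, mul_comm]

theorem idem_mul_idem (Φ : (Fin (n + 1) → ZMod 2) → G) (hΦ : ∀ x y, Φ x * Φ y = Φ (x + y)) :
    idem K Φ * idem K Φ = (2 ^ (n + 1) : K) • idem K Φ := by
  have h : ∀ x : Fin (n + 1) → ZMod 2, single (Φ x) (sgn K x) * idem K Φ = idem K Φ := by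
    intro x
    have h1 : (single (Φ x) (sgn K x) : MonoidAlgebra K G) = sgn K x • single (Φ x) 1 := by
      rw [smul_single, smul_eq_mul, mul_one]
    rw [h1, smul_mul_assoc, single_mul_idem Φ hΦ, smul_smul, ← sgn_add]
    have : x + x = 0 := by
      ext i
      exact CharTwo.add_self_eq_zero (x i)
    rw [this, sgn_zero, one_smul]
  have h0 : idem K Φ * idem K Φ = ∑ x, single (Φ x) (sgn K x) * idem K Φ := by
    rw [← Finset.sum_mul]
    rfl
  rw [h0, Finset.sum_congr rfl (fun x _ => h x), Finset.sum_const, Finset.card_univ]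
  have h2 : Fintype.card (Fin (n + 1) → ZMod 2) = 2 ^ (n + 1) := by
    simp [ZMod.card]
  rw [h2, ← Nat.cast_smul_eq_nsmul K]
  push_cast
  rfl

theorem idem_ne_zero (Φ : (Fin (n + 1) → ZMod 2) → G) (hinj : Function.Injective Φ) :
    idem K Φ ≠ 0 := by
  classical
  intro h
  have h2 : (idem K Φ).coeff (Φ 0) = 1 := by
    unfold idem
    rw [coeff_sum, Finsupp.finsetSum_apply, Finset.sum_eq_single 0]
    · simp [sgn_zero]
    · intro x _ hx
      rw [coeff_single, Finsupp.single_eq_of_ne (fun h3 => hx (hinj h3).symm)]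
    · intro h3
      exact absurd (Finset.mem_univ _) h3
  have h4 : (idem K Φ).coeff (Φ 0) = 0 := by rw [h]; rfl
  rw [h2] at h4
  exact one_ne_zero h4

/-- The key cancellation. -/
theorem idem_mul_single_mul_idem (h2 : (2 : K) ≠ 0) (Φ : (Fin (n + 1) → ZMod 2) → G)
    (hΦ : ∀ x y, Φ x * Φ y = Φ (x + y)) (g : G) (i : Fin n)
    (hg : Φ (Pi.single i.succ 1) * g = g * Φ (Pi.single 0 1)) :
    idem K Φ * single g 1 * idem K Φ = 0 := by
  have h3 : idem K Φ * single (Φ (Pi.single i.succ 1)) 1 = -idem K Φ := by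
    rw [idem_mul_single Φ hΦ, sgn_single_succ, neg_one_smul]
  have h4 : single (Φ (Pi.single 0 1)) 1 * idem K Φ = idem K Φ := by
    rw [single_mul_idem Φ hΦ, sgn_single_zero, one_smul]
  have h5 : (single (Φ (Pi.single i.succ 1)) 1 : MonoidAlgebra K G) * single g 1 =
      single g 1 * single (Φ (Pi.single 0 1)) 1 := by
    rw [single_mul_single, single_mul_single, hg]
  have h6 : -(idem K Φ * single g 1 * idem K Φ) = idem K Φ * single g 1 * idem K Φ := by
    calc -(idem K Φ * single g 1 * idem K Φ)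
        = idem K Φ * single (Φ (Pi.single i.succ 1)) 1 * single g 1 * idem K Φ := by
          rw [h3]; simp [neg_mul]
      _ = idem K Φ * (single (Φ (Pi.single i.succ 1)) 1 * single g 1) * idem K Φ := by
          rw [mul_assoc (idem K Φ) (single (Φ (Pi.single i.succ 1)) 1)]
      _ = idem K Φ * single g 1 * (single (Φ (Pi.single 0 1)) 1 * idem K Φ) := by
          rw [h5]; simp only [mul_assoc]
      _ = _ := by rw [h4]
  have h7 : (2 : K) • (idem K Φ * single g 1 * idem K Φ) = 0 := by
    rw [two_smul]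
    nth_rewrite 1 [← h6]
    exact neg_add_cancel _
  exact (smul_eq_zero.1 h7).resolve_left h2

/-- The group algebra is semiprimitive. -/
theorem semiprimitive (h2 : (2 : K) ≠ 0)
    (hw : ∀ (n : ℕ) (g : Fin n → G), Function.Injective g → (∀ i, g i ≠ 1) → HasWitness g) :
    Ring.jacobson (MonoidAlgebra K G) = ⊥ := by
  classical
  rw [eq_bot_iff]
  intro α hα
  rw [Ideal.mem_bot]
  by_contra hne
  obtain ⟨s, hs⟩ : ∃ s, α.coeff s ≠ 0 := by
    by_contra h
    push Not at h
    apply hne
    ext s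
    exact h s
  set β : MonoidAlgebra K G := single s⁻¹ 1 * α with hβ
  have hβJ : β ∈ Ring.jacobson (MonoidAlgebra K G) := Ideal.mul_mem_left _ _ hα
  have hβ1 : β.coeff 1 ≠ 0 := by
    rw [hβ]
    simpa using hs
  set T : Finset G := β.coeff.support.erase 1 with hT
  let g : Fin T.card → G := fun i => (T.equivFin.symm i : G)
  have hginj : Function.Injective g := fun i j h => T.equivFin.symm.injective (Subtype.ext h)
  have hg1 : ∀ i, g i ≠ 1 := fun i => Finset.ne_of_mem_erase (T.equivFin.symm i).2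
  obtain ⟨Φ, hinj, hΦ, hc⟩ := hw _ g hginj hg1
  have hdec : β = β.coeff 1 • single 1 1 + ∑ i, β.coeff (g i) • single (g i) 1 := by
    have h1 : β = ∑ x ∈ β.coeff.support, β.coeff x • (single x 1 : MonoidAlgebra K G) := by
      conv_lhs => rw [← sum_coeff_single β]
      rw [Finsupp.sum]
      apply Finset.sum_congr rfl
      intro x _
      rw [smul_single, smul_eq_mul, mul_one]
    have h3 : (1 : G) ∈ β.coeff.support := Finsupp.mem_support_iff.2 hβ1
    have h4 : ∑ i, β.coeff (g i) • (single (g i) 1 : MonoidAlgebra K G) =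
        ∑ x ∈ T, β.coeff x • (single x 1 : MonoidAlgebra K G) := by
      rw [← Finset.sum_coe_sort T (fun x => β.coeff x • (single x 1 : MonoidAlgebra K G)),
        ← Equiv.sum_comp T.equivFin.symm]
    rw [h4, hT, Finset.add_sum_erase _ (fun x => β.coeff x • (single x 1 : MonoidAlgebra K G)) h3]
    exact h1
  have hkey : idem K Φ * β * idem K Φ = (β.coeff 1 * 2 ^ (T.card + 1)) • idem K Φ := by
    have h1 : idem K Φ * β * idem K Φ = idem K Φ * (β.coeff 1 • single 1 1 +
        ∑ i, β.coeff (g i) • single (g i) 1) * idem K Φ := by rw [← hdec]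
    rw [h1, mul_add, add_mul, Finset.mul_sum, Finset.sum_mul]
    have h3 : ∑ i, idem K Φ * (β.coeff (g i) • single (g i) 1) * idem K Φ = 0 := by
      apply Finset.sum_eq_zero
      intro i _
      rw [mul_smul_comm, smul_mul_assoc, idem_mul_single_mul_idem h2 Φ hΦ (g i) i (hc i), smul_zero]
    rw [h3, add_zero, mul_smul_comm, smul_mul_assoc, ← one_def, mul_one, idem_mul_idem Φ hΦ,
      smul_smul]
  have hc0 : β.coeff 1 * 2 ^ (T.card + 1) ≠ 0 := mul_ne_zero hβ1 (pow_ne_zero _ h2)
  have hmem : idem K Φ ∈ Ring.jacobson (MonoidAlgebra K G) := by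
    have h3 : idem K Φ * β * idem K Φ ∈ Ring.jacobson (MonoidAlgebra K G) :=
      Ideal.mul_mem_right _ _ (Ideal.mul_mem_left _ _ hβJ)
    rw [hkey] at h3
    have h4 := Ideal.mul_mem_left _ (algebraMap K (MonoidAlgebra K G) (β.coeff 1 * 2 ^ (T.card + 1))⁻¹) h3
    rwa [← Algebra.smul_def, smul_smul, inv_mul_cancel₀ hc0, one_smul] at h4
  -- an idempotent in the radical
  set c : K := (2 ^ (T.card + 1))⁻¹ with hcdef
  have hc' : c * 2 ^ (T.card + 1) = 1 := inv_mul_cancel₀ (pow_ne_zero _ h2)
  rw [← Ideal.jacobson_bot, Ideal.mem_jacobson_iff] at hmem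
  obtain ⟨z, hz⟩ := hmem (algebraMap K (MonoidAlgebra K G) (-c))
  rw [Ideal.mem_bot] at hz
  have h5 : z * (algebraMap K (MonoidAlgebra K G) (-c)) * idem K Φ = -c • (z * idem K Φ) := by
    rw [mul_assoc, ← Algebra.smul_def, mul_smul_comm]
  rw [h5] at hz
  have h6 : z = 1 + c • (z * idem K Φ) := by
    rw [neg_smul] at hz
    have h7 : z - (1 + c • (z * idem K Φ)) = -(c • (z * idem K Φ)) + z - 1 := by abel
    rw [hz] at h7
    exact sub_eq_zero.1 h7
  have h8 : z * idem K Φ = idem K Φ + z * idem K Φ := by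
    conv_lhs => rw [h6, add_mul, one_mul, smul_mul_assoc, mul_assoc, idem_mul_idem Φ hΦ,
      mul_smul_comm, smul_smul, hc', one_smul]
  exact idem_ne_zero Φ hinj (by simpa using h8)

end algebra

section embedding

variable {G : Type} [Group G] {n : ℕ}

/-- The left translations on `G × ZMod 2`. -/
def trans : G →* Equiv.Perm (G × ZMod 2) where
  toFun g := (Equiv.mulLeft g).prodCongr (Equiv.refl _)
  map_one' := by
    ext x <;> simp
  map_mul' a b := by
    ext x <;> simp [mul_assoc]

theorem trans_apply (g : G) (x : G × ZMod 2) : trans g x = (g * x.1, x.2) := rfl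

theorem trans_injective : Function.Injective (trans : G →* Equiv.Perm (G × ZMod 2)) := by
  intro a b h
  have := congrArg (fun e : Equiv.Perm (G × ZMod 2) => (e (1, 0)).1) h
  simpa [trans_apply] using this

/-- The flips of the second coordinate. -/
def flip (u : G → ZMod 2) : Equiv.Perm (G × ZMod 2) where
  toFun x := (x.1, x.2 + u x.1)
  invFun x := (x.1, x.2 - u x.1)
  left_inv x := by simp
  right_inv x := by simp

omit [Group G] in
theorem flip_apply (u : G → ZMod 2) (x : G × ZMod 2) : flip u x = (x.1, x.2 + u x.1) := rfl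

open Classical in
/-- The flip function. -/
noncomputable def wt (g : Fin n → G) (x : Fin (n + 1) → ZMod 2) (h : G) : ZMod 2 :=
  ∑ i : Fin (n + 1), x i * (if h = (Fin.cons 1 g : Fin (n + 1) → G) i then 1 else 0)

theorem cons_injective {g : Fin n → G} (hg : Function.Injective g) (hg1 : ∀ i, g i ≠ 1) :
    Function.Injective (Fin.cons 1 g : Fin (n + 1) → G) := by
  rw [Fin.cons_injective_iff]
  refine ⟨?_, hg⟩
  rintro ⟨i, hi⟩
  exact hg1 i hi

theorem wt_add (g : Fin n → G) (x y : Fin (n + 1) → ZMod 2) (h : G) :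
    wt g (x + y) h = wt g x h + wt g y h := by
  unfold wt
  rw [← Finset.sum_add_distrib]
  apply Finset.sum_congr rfl
  intro i _
  rw [Pi.add_apply, add_mul]

theorem wt_cons {g : Fin n → G} (hg : Function.Injective g) (hg1 : ∀ i, g i ≠ 1)
    (x : Fin (n + 1) → ZMod 2) (i : Fin (n + 1)) :
    wt g x ((Fin.cons 1 g : Fin (n + 1) → G) i) = x i := by
  classical
  unfold wt
  rw [Finset.sum_eq_single i]
  · rw [if_pos rfl, mul_one]
  · intro j _ hj
    rw [if_neg (fun h => hj (cons_injective hg hg1 h).symm), mul_zero]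
  · intro h
    exact absurd (Finset.mem_univ i) h

theorem wt_single (g : Fin n → G) (i : Fin (n + 1)) (h : G) [Decidable (h = (Fin.cons 1 g : Fin (n + 1) → G) i)] :
    wt g (Pi.single i 1) h = if h = (Fin.cons 1 g : Fin (n + 1) → G) i then 1 else 0 := by
  classical
  unfold wt
  rw [Finset.sum_eq_single i]
  · rw [Pi.single_eq_same, one_mul]
    congr
  · intro j _ hj
    rw [Pi.single_eq_of_ne hj, zero_mul]
  · intro h
    exact absurd (Finset.mem_univ i) h

theorem exists_overgroup [Countable G] [Infinite G] {g : Fin n → G} (hg : Function.Injective g)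
    (hg1 : ∀ i, g i ≠ 1) : ∃ (K : Type) (_ : Group K) (ι : G →* K), Countable K ∧ Infinite K ∧
      Function.Injective ι ∧ HasWitness (fun i => ι (g i)) := by
  classical
  let f : G ⊕ (Fin (n + 1) → ZMod 2) → Equiv.Perm (G × ZMod 2) :=
    Sum.elim trans (fun x => flip (wt g x))
  let L := FreeGroup.lift f
  have hL1 : ∀ a : G, trans a ∈ L.range := fun a =>
    ⟨FreeGroup.of (Sum.inl a), by simp [L, f]⟩
  have hL2 : ∀ x, flip (wt g x) ∈ L.range := fun x =>
    ⟨FreeGroup.of (Sum.inr x), by simp [L, f]⟩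
  let ι : G →* L.range := MonoidHom.codRestrict trans L.range hL1
  have hι : Function.Injective ι := by
    intro a b h
    exact trans_injective (congrArg Subtype.val h)
  refine ⟨L.range, inferInstance, ι, ?_, Infinite.of_injective ι hι, hι, ?_⟩
  · exact (Set.countable_range L).to_subtype
  · refine ⟨fun x => ⟨flip (wt g x), hL2 x⟩, ?_, ?_, ?_⟩
    · intro x y h
      have h1 := congrArg Subtype.val h
      funext i
      have h2 := congrArg (fun e : Equiv.Perm (G × ZMod 2) =>
        (e ((Fin.cons 1 g : Fin (n + 1) → G) i, 0)).2) h1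
      simp only [flip_apply, wt_cons hg hg1, zero_add] at h2
      exact h2
    · intro x y
      apply Subtype.ext
      show flip (wt g x) * flip (wt g y) = flip (wt g (x + y))
      ext z
      · rfl
      · simp only [Equiv.Perm.mul_apply, flip_apply, wt_add]
        ring
    · intro i
      apply Subtype.ext
      show flip (wt g (Pi.single i.succ 1)) * trans (g i) = trans (g i) * flip (wt g (Pi.single 0 1))
      ext z
      · rfl
      · simp only [Equiv.Perm.mul_apply, flip_apply, trans_apply, wt_single, Fin.cons_succ,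
          Fin.cons_zero, mul_eq_left]

end embedding

theorem HasWitness.transfer {G H : Type} [Group G] [Group H] (e : G ≃* H) {n : ℕ} (g : Fin n → G)
    (h : HasWitness (fun i => e (g i))) : HasWitness g := by
  obtain ⟨Φ, h1, h2, h3⟩ := h
  refine ⟨fun x => e.symm (Φ x), e.symm.injective.comp h1, ?_, ?_⟩
  · intro x y
    rw [← map_mul, h2]
  · intro i
    apply e.injective
    rw [map_mul, map_mul, MulEquiv.apply_symm_apply, MulEquiv.apply_symm_apply]
    exact h3 i

/-- The open dense sets. -/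
def D (n : ℕ) (g : Fin n → ℕ) : Set Gs :=
  {m | Function.Injective g → (∀ i, of m (g i) ≠ 1) → HasWitness (fun i => of m (g i))}

theorem mem_D {n : ℕ} {g : Fin n → ℕ} {m : Gs} : m ∈ D n g ↔ (Function.Injective g →
    (∀ i, of m (g i) ≠ 1) → HasWitness (fun i => of m (g i))) := Iff.rfl

theorem of_mul (m : Gs) (a b : ℕ) : of m a * of m b = of m (m.1 (a, b)) := rfl

theorem of_injective (m : Gs) : Function.Injective (of m) := fun _ _ h => h

theorem eq_one_iff (m : Gs) (a : ℕ) : of m a = 1 ↔ m.1 (a, a) = a := by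
  constructor
  · intro h
    apply of_injective m
    rw [← of_mul, h, one_mul]
  · intro h
    have h1 : of m a * of m a = of m a := by rw [of_mul, h]
    exact mul_eq_left.1 h1

theorem isOpen_eval (a : ℕ × ℕ) (c : ℕ) : IsOpen {m : Gs | m.1 a = c} := by
  have h : Continuous fun m : Gs => m.1 a := (continuous_apply a).comp continuous_subtype_val
  exact (isOpen_discrete {c}).preimage h

theorem isOpen_eval_eq (a b : ℕ × ℕ) : IsOpen {m : Gs | m.1 a = m.1 b} := by
  have h : Continuous fun m : Gs => (m.1 a, m.1 b) :=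
    ((continuous_apply a).comp continuous_subtype_val).prodMk
      ((continuous_apply b).comp continuous_subtype_val)
  exact (isOpen_discrete {q : ℕ × ℕ | q.1 = q.2}).preimage h

theorem isOpen_D (n : ℕ) (g : Fin n → ℕ) : IsOpen (D n g) := by
  by_cases hg : Function.Injective g
  swap
  · have : D n g = Set.univ := by
      ext m
      rw [mem_D]
      exact ⟨fun _ => trivial, fun _ h => absurd h hg⟩
    rw [this]
    exact isOpen_univ
  have h : D n g = (⋃ i, {m : Gs | m.1 (g i, g i) = g i}) ∪
      ⋃ (Φ : (Fin (n + 1) → ZMod 2) → ℕ) (_ : Function.Injective Φ),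
        ((⋂ (x : Fin (n + 1) → ZMod 2) (y : Fin (n + 1) → ZMod 2),
          {m : Gs | m.1 (Φ x, Φ y) = Φ (x + y)}) ∩
        ⋂ i : Fin n, {m : Gs | m.1 (Φ (Pi.single i.succ 1), g i) = m.1 (g i, Φ (Pi.single 0 1))}) := by
    ext m
    rw [mem_D]
    simp only [Set.mem_union, Set.mem_iUnion, Set.mem_inter_iff, Set.mem_iInter]
    constructor
    · intro h
      by_cases h1 : ∀ i, of m (g i) ≠ 1
      · right
        obtain ⟨Φ, h2, h3, h4⟩ := h hg h1
        exact ⟨Φ, h2, h3, h4⟩
      · left
        push Not at h1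
        obtain ⟨i, hi⟩ := h1
        exact ⟨i, (eq_one_iff m (g i)).1 hi⟩
    · rintro (⟨i, hi⟩ | ⟨Φ, h2, h3, h4⟩)
      · intro _ h1
        exact absurd ((eq_one_iff m (g i)).2 hi) (h1 i)
      · intro _ _
        exact ⟨Φ, h2, h3, h4⟩
  rw [h]
  refine IsOpen.union (isOpen_iUnion fun i => isOpen_eval _ _) (isOpen_iUnion fun Φ =>
    isOpen_iUnion fun _ => IsOpen.inter ?_ ?_)
  · exact isOpen_iInter_of_finite fun x => isOpen_iInter_of_finite fun y => isOpen_eval _ _
  · exact isOpen_iInter_of_finite fun i => isOpen_eval_eq _ _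

theorem dense_D (n : ℕ) (g : Fin n → ℕ) : Dense (D n g) := by
  classical
  rw [dense_iff_inter_open]
  rintro U hU ⟨m₀, hm₀⟩
  by_cases hD : m₀ ∈ D n g
  · exact ⟨m₀, hm₀, hD⟩
  simp only [mem_D, not_forall] at hD
  obtain ⟨hg, hg1, -⟩ := hD
  obtain ⟨V, hV, rfl⟩ := isOpen_induced_iff.1 hU
  rw [isOpen_pi_iff] at hV
  obtain ⟨I, u, hu, hIu⟩ := hV m₀.1 hm₀
  have hcount : Countable (Carrier m₀) := inferInstanceAs (Countable ℕ)
  have hinf : Infinite (Carrier m₀) := inferInstanceAs (Infinite ℕ)
  obtain ⟨K, hK, ι, hKc, hKi, hι, hw⟩ := exists_overgroup (G := Carrier m₀)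
    (g := fun i => of m₀ (g i)) hg hg1
  let T : Finset ℕ := (I.image fun q => q.1) ∪ (I.image fun q => q.2) ∪ (I.image fun q => m₀.1 q) ∪
    Finset.univ.image g
  let f : (T : Set ℕ) ↪ K := ⟨fun x => ι (of m₀ x), fun x y h => Subtype.ext (hι h)⟩
  have hcompl : Nonempty (((T : Set ℕ)ᶜ : Set ℕ) ≃ ((Set.range f)ᶜ : Set K)) := by
    have h1 : Infinite ((T : Set ℕ)ᶜ : Set ℕ) := (T.finite_toSet.infinite_compl).to_subtype
    have h2 : (Set.range f).Finite := Set.finite_range f
    have h3 : Infinite ((Set.range f)ᶜ : Set K) := (h2.infinite_compl).to_subtype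
    exact nonempty_equiv_of_countable
  obtain ⟨β, hβ⟩ := Cardinal.extend_function f hcompl
  have hβ' : ∀ x ∈ T, β x = ι (of m₀ x) := fun x hx => hβ ⟨x, hx⟩
  let mm : ℕ × ℕ → ℕ := fun q => β.symm (β q.1 * β q.2)
  have hmm : IsGroupOp mm := by
    refine ⟨fun a b c => by simp [mm, mul_assoc], β.symm 1, fun a => by simp [mm], fun a => ?_⟩
    exact ⟨β.symm (β a)⁻¹, by simp [mm]⟩
  let m : Gs := ⟨mm, hmm⟩
  refine ⟨m, ?_, ?_⟩
  · apply hIu
    intro q hq
    have h1 : q.1 ∈ T := by
      simp only [T, Finset.mem_union, Finset.mem_image]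
      exact Or.inl (Or.inl (Or.inl ⟨q, hq, rfl⟩))
    have h2 : q.2 ∈ T := by
      simp only [T, Finset.mem_union, Finset.mem_image]
      exact Or.inl (Or.inl (Or.inr ⟨q, hq, rfl⟩))
    have h3 : m₀.1 q ∈ T := by
      simp only [T, Finset.mem_union, Finset.mem_image]
      exact Or.inl (Or.inr ⟨q, hq, rfl⟩)
    have h4 : mm q = m₀.1 q := by
      show β.symm (β q.1 * β q.2) = m₀.1 q
      rw [Equiv.symm_apply_eq, hβ' _ h1, hβ' _ h2, hβ' _ h3]
      exact (map_mul ι (of m₀ q.1) (of m₀ q.2)).symm
    show mm q ∈ u q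
    rw [h4]
    exact (hu q hq).2
  · intro _ _
    let e : Carrier m ≃* K :=
      { toEquiv := β
        map_mul' := fun a b => by
          show β (β.symm (β a * β b)) = β a * β b
          rw [Equiv.apply_symm_apply] }
    apply HasWitness.transfer e
    have : (fun i => e (of m (g i))) = fun i => ι (of m₀ (g i)) := by
      funext i
      have h5 : g i ∈ T := by
        simp only [T, Finset.mem_union, Finset.mem_image]
        exact Or.inr ⟨i, Finset.mem_univ _, rfl⟩
      exact hβ' (g i) h5
    rw [this]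
    exact hw

/-- **The group algebra of the generic countable group is semiprimitive.** In the space `Gs` of the
groups with universe `ℕ`, the set of the groups `G` with `J(ℚ[G]) = 0` is comeager; moreover the
set of the groups `G` such that `J(K[G]) = 0` for every field `K` of characteristic different from
`2` is comeager. -/
theorem result :
    {m : Gs | Ring.jacobson (MonoidAlgebra ℚ (Carrier m)) = ⊥} ∈ residual Gs ∧
    {m : Gs | ∀ (K : Type) [Field K], (2 : K) ≠ 0 →
      Ring.jacobson (MonoidAlgebra K (Carrier m)) = ⊥} ∈ residual Gs := by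
  have h : (⋂ q : (Σ n : ℕ, Fin n → ℕ), D q.1 q.2) ∈ residual Gs :=
    countable_iInter_mem.2 fun q => residual_of_dense_open (isOpen_D _ _) (dense_D _ _)
  have h1 : ∀ m ∈ (⋂ q : (Σ n : ℕ, Fin n → ℕ), D q.1 q.2), ∀ (K : Type) [Field K], (2 : K) ≠ 0 →
      Ring.jacobson (MonoidAlgebra K (Carrier m)) = ⊥ := by
    intro m hm K _ h2
    apply semiprimitive h2
    intro n g hg hg1
    exact mem_D.1 (Set.mem_iInter.1 hm ⟨n, g⟩) hg hg1
  exact ⟨Filter.mem_of_superset h fun m hm => h1 m hm ℚ two_ne_zero,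
    Filter.mem_of_superset h fun m hm K _ => h1 m hm K⟩

end Pool.Agent.Results.MP_146d92_al.GenericSemiprimitive
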